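import Pool.Agent.TH56.CM.Rlx

/-!
# Range relaxed super edge-magic labellings of trees

Let `T` be a tree with `m ≥ 1` edges, let `L` be the number of leaves of the tree obtained from `T`
by deleting all leaves of `T`, and `e = 2 (L - 2) min (⌊log₂ (L - 1)⌋, 6)`.  Then the vertices of `T`
can be labelled injectively by numbers in `{1, …, m + e + 1}` and the edges injectively by numbers in
`{m + e + 2, …, 2 (m + e) + 1}` such that the sum `f u + g (uv) + f v` is the same for all edges.
-/

set_option autoImplicit false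

namespace Pool.Agent.Results.MP_138ac9_co.RelaxedSuper

/-- The number of the vertices of `T` which are not leaves and have at most one neighbour that is
not a leaf, i.e. of the vertices of degree at most `1` of the tree obtained from `T` by deleting all
leaves. -/
noncomputable def derivedLeaves {V : Type} (T : SimpleGraph V) : ℕ :=
  {x : V | 2 ≤ (T.neighborSet x).ncard ∧
    {y : V | T.Adj x y ∧ 2 ≤ (T.neighborSet y).ncard}.ncard ≤ 1}.ncard

/-- Let `T` be a finite tree with `m ≥ 1` edges, `L` the number of leaves of the tree obtained from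
`T` by deleting all leaves, and `q = m + 2 (L - 2) min (⌊log₂ (L - 1)⌋, 6)` (truncated subtraction).
Then there are an injective labelling `f` of the vertices by `{1, …, q + 1}` and an injective
labelling `g` of the edges by `{q + 2, …, 2 q + 1}` such that `f u + g (uv) + f v` is the same number
`k` for all edges `uv`. -/
theorem result (V : Type) [Fintype V] (T : SimpleGraph V) (hT : T.IsTree)
    (he : 1 ≤ T.edgeSet.ncard) (q : ℕ)
    (hq : q = T.edgeSet.ncard +
      2 * (derivedLeaves T - 2) * min (Nat.log 2 (derivedLeaves T - 1)) 6) :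
    ∃ (k : ℕ) (f : V → ℕ) (g : T.edgeSet → ℕ), Function.Injective f ∧ Function.Injective g ∧
      (∀ v, 1 ≤ f v ∧ f v ≤ q + 1) ∧ (∀ e, q + 2 ≤ g e ∧ g e ≤ 2 * q + 1) ∧
      ∀ (u v : V) (h : T.Adj u v), f u + g ⟨s(u, v), h⟩ + f v = k := by
  classical
  obtain ⟨col, hcol⟩ := Pool.Agent.TH56.CL.exists_col hT
  obtain ⟨M, hR, f6⟩ := Pool.Agent.TH56.CM.rlx_both hT he
  obtain ⟨θ, f, f1, f2, hθ, hθM, -, f4, f5⟩ := hR.bip he col hcol true
  have hMq : M ≤ q := by
    rw [hq]
    exact f6
  -- the labels of the vertices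
  obtain ⟨g, hg⟩ : ∃ g : V → ℕ, ∀ x, (f x < θ ∧ g x = f x + 1) ∨
      (θ ≤ f x ∧ g x + f x = M + θ + 1) := by
    refine ⟨fun x => if f x < θ then f x + 1 else M + θ + 1 - f x, fun x => ?_⟩
    simp only
    have := f2 x
    by_cases h : f x < θ
    · rw [if_pos h]
      exact Or.inl ⟨h, rfl⟩
    · rw [if_neg h]
      exact Or.inr ⟨by omega, by omega⟩
  have hg1 : ∀ x, 1 ≤ g x ∧ g x ≤ M + 1 := by
    intro x
    have := f2 x
    rcases hg x with h | h <;> omega
  have hginj : ∀ x y, g x = g y → x = y := by
    intro x y h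
    have h4 := f2 x
    have h5 := f2 y
    apply f1
    rcases hg x with h2 | h2 <;> rcases hg y with h3 | h3 <;> omega
  -- the labels of the edges
  have hE : ∀ e : T.edgeSet, ∃ x y, T.Adj x y ∧ f x < θ ∧ θ ≤ f y ∧ (e : Sym2 V) = s(x, y) := by
    rintro ⟨e, he⟩
    induction e using Sym2.ind with
    | _ a b =>
      rcases f4 a b he with h | h
      · exact ⟨a, b, he, h.1, h.2, rfl⟩
      · exact ⟨b, a, (show T.Adj a b from he).symm, h.1, h.2, Sym2.eq_swap⟩
  choose ex ey hadj hex hey heq using hE
  refine ⟨M + θ + 2 + (q + 1), g, fun e => q + 1 + (f (ey e) - f (ex e)), hginj, ?_, ?_, ?_, ?_⟩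
  · intro e e' h
    simp only at h
    have h4 := hex e
    have h5 := hey e
    have h6 := hex e'
    have h7 := hey e'
    obtain ⟨h8, h9⟩ := f5 _ _ _ _ (hadj e) (hadj e') h4 h6 (by omega)
    refine Subtype.ext ?_
    rw [heq e, heq e', h8, h9]
  · intro v
    have := hg1 v
    omega
  · intro e
    have h4 := hex e
    have h5 := hey e
    have h6 := f2 (ey e)
    simp only
    omega
  · intro u v h
    have key : ∀ e : T.edgeSet, (e : Sym2 V) = s(u, v) →
        g u + (q + 1 + (f (ey e) - f (ex e))) + g v = M + θ + 2 + (q + 1) := by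
      intro e he
      have h1 := heq e
      have h2 := hex e
      have h3 := hey e
      rw [he] at h1
      have h6 : g (ex e) + g (ey e) + f (ey e) = M + θ + 2 + f (ex e) := by
        rcases hg (ex e) with h4 | h4 <;> rcases hg (ey e) with h5 | h5 <;> omega
      rcases Sym2.eq_iff.1 h1 with ⟨h4, h5⟩ | ⟨h4, h5⟩
      · rw [h4, h5]
        omega
      · rw [h4, h5]
        omega
    exact key _ rfl

end Pool.Agent.Results.MP_138ac9_co.RelaxedSuper
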